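import Pool.Agent.Helper93.LH.He
import Pool.Agent.Helper4.LT.Tt
import Pool.Agent.Helper4.LT.La
import Pool.Agent.Helper35.LZ.Gd

/-!
PROJECT ALLQ (MP_274814_nt), block H: application to theta functions of one CM type.
-/

set_option autoImplicit false

namespace Pool.Agent.Helper93.LH

open Finset Pool.Agent.Helper13.LT LTG
open Pool.Agent.Helper34.LT (Theta pt)
open Pool.Agent.Helper53.LE (RTE)

section

variable (q : ℕ) (s : Finset ℕ) (ρ : ℕ → ℂ) (κ : s → ℂ) (c : Polynomial ℤ → ℂ)

/-- the lattice as a homomorphism -/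
noncomputable def gam : Polynomial ℤ →+ (s → ℂ) where
  toFun P := lamS q s ρ P
  map_zero' := by
    funext i
    simp [lamS, pt]
  map_add' a b := by
    funext i
    simp [lamS, pt, mul_add]

/-- the linear parts of the multipliers -/
noncomputable def lin : Polynomial ℤ →+ ((s → ℂ) →ₗ[ℂ] ℂ) where
  toFun P := ∑ u, (κ u * (starRingEnd ℂ) (pt q s P u)) • LinearMap.proj u
  map_zero' := by simp [pt]
  map_add' a b := by
    ext x
    simp [pt, mul_add, add_mul, Finset.sum_add_distrib]

theorem lin_apply (P : Polynomial ℤ) (z : s → ℂ) :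
    lin q s κ P z = ∑ u, κ u * (starRingEnd ℂ) (pt q s P u) * z u := by
  simp [lin]

theorem Theta_iff (F : (s → ℂ) → ℂ) :
    Theta (gam q s ρ) (lin q s κ) c 1 F ↔ Differentiable ℂ F ∧ QPS q s ρ κ c F := by
  unfold Theta QPS
  refine and_congr_right fun _ => forall_congr' fun P => forall_congr' fun z => ?_
  rw [lin_apply]
  simp only [Nat.cast_one, one_mul]
  rfl

theorem gam_cocompact (hs : HS q s) (hρ : ∀ u ∈ s, ρ u ≠ 0) :
    ∃ R : ℝ, ∀ z, ∃ a, ‖z - gam q s ρ a‖ ≤ R := by
  obtain ⟨C, _, h⟩ := cocompact q s hs ρ hρ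
  refine ⟨C, fun z => ?_⟩
  obtain ⟨n, h1, _⟩ := h z
  refine ⟨∑ j : Fin q.totient, Polynomial.C (n j) * Polynomial.X ^ (j : ℕ), ?_⟩
  have e : gam q s ρ (∑ j : Fin q.totient, Polynomial.C (n j) * Polynomial.X ^ (j : ℕ)) =
      ∑ j : Fin q.totient, (n j : ℂ) • lamS q s ρ (Polynomial.X ^ (j : ℕ)) := by
    rw [map_sum]
    refine Finset.sum_congr rfl fun j _ => ?_
    funext u
    change ρ u * pt q s _ u = (n j : ℂ) * (ρ u * pt q s _ u)
    simp only [pt, map_mul, Polynomial.aeval_C]
    simp
    ring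
  rw [e]
  exact h1

/-- the space of theta functions with multiplier doubled -/
def S2 : Submodule ℂ ((s → ℂ) → ℂ) where
  carrier := {F | Differentiable ℂ F ∧ QPS q s ρ (fun u => 2 * κ u) (fun P => 2 * c P) F}
  zero_mem' := ⟨differentiable_const 0, fun P z => by
    change (0 : ℂ) = _ * 0
    rw [mul_zero]⟩
  add_mem' := fun {F G} hF hG => ⟨hF.1.add hG.1, fun P z => by
    change F (z + lamS q s ρ P) + G (z + lamS q s ρ P) = _ * (F z + G z)
    rw [hF.2, hG.2]
    ring⟩
  smul_mem' := fun t F hF => ⟨hF.1.const_smul t, fun P z => by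
    change t • F (z + lamS q s ρ P) = _ * (t • F z)
    rw [hF.2, smul_eq_mul, smul_eq_mul]
    ring⟩

variable {q s ρ κ c}

theorem S2_finite (hs : HS q s) (hρ : ∀ u ∈ s, ρ u ≠ 0) (τ : (s → ℂ) → ℂ)
    (hd : Differentiable ℂ τ) (hne : ∃ z, τ z ≠ 0) (hq : QPS q s ρ κ c τ) :
    FiniteDimensional ℂ (S2 q s ρ κ c) := by
  obtain ⟨C, -, hC⟩ := Pool.Agent.Helper35.LZ.dim_ThS (γ := gam q s ρ)
    (l := lin q s (fun u => 3 * κ u)) (c := fun P => 3 * c P) (fun p => by
      obtain ⟨w, hw⟩ := TT_ne τ hd hne p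
      refine ⟨fun z => TT τ (Sum.elim z w), (Theta_iff _ _ _ _ _ _).2
        ⟨?_, TT_QP q s ρ κ c τ hq w⟩, hw⟩
      refine (TT_diff τ hd).comp ?_
      rw [differentiable_pi]
      rintro (u | u)
      · simp only [Sum.elim_inl]
        exact differentiable_apply u
      · simp only [Sum.elim_inr]
        exact differentiable_const _) (gam_cocompact q s ρ hs hρ)
  have hfin := (hC 1).1
  let L : S2 q s ρ κ c →ₗ[ℂ] Pool.Agent.Helper35.LZ.ThS (gam q s ρ)
      (lin q s (fun u => 3 * κ u)) (fun P => 3 * c P) 1 :=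
    { toFun := fun F => ⟨fun z => F.1 z * τ z, (Theta_iff _ _ _ _ _ _).2
        ⟨F.2.1.mul hd, fun P z => by
          change F.1 (z + lamS q s ρ P) * τ (z + lamS q s ρ P) =
            Complex.exp (∑ u, 3 * κ u * (starRingEnd ℂ) (pt q s P u) * z u + 3 * c P) *
              (F.1 z * τ z)
          rw [F.2.2, hq]
          have e : Complex.exp (∑ u, 3 * κ u * (starRingEnd ℂ) (pt q s P u) * z u + 3 * c P) =
              Complex.exp (∑ u, 2 * κ u * (starRingEnd ℂ) (pt q s P u) * z u + 2 * c P) *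
              Complex.exp (∑ u, κ u * (starRingEnd ℂ) (pt q s P u) * z u + c P) := by
            rw [← Complex.exp_add]
            congr 1
            have e2 : ∑ u, 3 * κ u * (starRingEnd ℂ) (pt q s P u) * z u =
                ∑ u, 2 * κ u * (starRingEnd ℂ) (pt q s P u) * z u +
                ∑ u, κ u * (starRingEnd ℂ) (pt q s P u) * z u := by
              rw [← Finset.sum_add_distrib]
              exact Finset.sum_congr rfl fun u _ => by ring
            rw [e2]
            ring
          rw [e]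
          ring⟩⟩
      map_add' := fun F G => by
        apply Subtype.ext
        funext z
        change (F.1 z + G.1 z) * τ z = F.1 z * τ z + G.1 z * τ z
        ring
      map_smul' := fun t F => by
        apply Subtype.ext
        funext z
        change (t • F.1 z) * τ z = t • (F.1 z * τ z)
        rw [smul_eq_mul, smul_eq_mul]
        ring }
  have hL : Function.Injective L := by
    rw [← LinearMap.ker_eq_bot, Submodule.eq_bot_iff]
    intro F hF
    by_contra hne'
    have h1 : ∃ z, F.1 z ≠ 0 := by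
      by_contra hcon
      push Not at hcon
      exact hne' (Subtype.ext (funext hcon))
    obtain ⟨w, h2, h3⟩ := exists_ne₂ F.2.1 hd h1 hne
    have h4 := congrArg (fun G => G.1 w) (LinearMap.mem_ker.1 hF)
    exact mul_ne_zero h2 h3 h4
  exact Module.Finite.of_injective L hL

/-- BLOCK H for theta functions. -/
theorem H_theta (hs : HS q s) (hρ : ∀ u ∈ s, ρ u ≠ 0) (τ : (s → ℂ) → ℂ)
    (hd : Differentiable ℂ τ) (h1 : τ 0 = 1) (hq : QPS q s ρ κ c τ) (a : (s → ℕ) → ℂ)
    (ha : PS a τ) (halg : ∀ m, IsAlgebraic ℚ (a m)) :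
    ∃ E : IntermediateField ℚ ℂ, FiniteDimensional ℚ E ∧ RTE E a := by
  have hne : ∃ z, τ z ≠ 0 := ⟨0, by rw [h1]; exact one_ne_zero⟩
  have := S2_finite hs hρ τ hd hne hq
  refine H_main τ a ha h1 halg (S2 q s ρ κ c) fun w => ⟨?_, fun P z => ?_⟩
  · exact (hd.comp (differentiable_id.add_const w)).mul
      (hd.comp (differentiable_id.sub_const w))
  · change τ (z + lamS q s ρ P + w) * τ (z + lamS q s ρ P - w) = _ * (τ (z + w) * τ (z - w))
    have e1 : z + lamS q s ρ P + w = (z + w) + lamS q s ρ P := by abel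
    have e2 : z + lamS q s ρ P - w = (z - w) + lamS q s ρ P := by abel
    rw [e1, e2, hq, hq]
    have e : Complex.exp (∑ u, 2 * κ u * (starRingEnd ℂ) (pt q s P u) * z u + 2 * c P) =
        Complex.exp (∑ u, κ u * (starRingEnd ℂ) (pt q s P u) * (z + w) u + c P) *
        Complex.exp (∑ u, κ u * (starRingEnd ℂ) (pt q s P u) * (z - w) u + c P) := by
      rw [← Complex.exp_add]
      congr 1
      have e3 : ∑ u, 2 * κ u * (starRingEnd ℂ) (pt q s P u) * z u =
          ∑ u, κ u * (starRingEnd ℂ) (pt q s P u) * (z + w) u +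
          ∑ u, κ u * (starRingEnd ℂ) (pt q s P u) * (z - w) u := by
        rw [← Finset.sum_add_distrib]
        refine Finset.sum_congr rfl fun u _ => ?_
        simp only [Pi.add_apply, Pi.sub_apply]
        ring
      rw [e3]
      ring
    rw [e]
    ring

end

end Pool.Agent.Helper93.LH
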