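import Pool.Agent.Helper96.LU.Vr

/-!
PROJECT ALLQ (MP_274814_nt), block H: binomial sums over multi-indices.
-/

set_option autoImplicit false

namespace Pool.Agent.Helper93.LH

open Finset Pool.Agent.Helper13.LT Pool.Agent.Helper96.LU

variable {ι : Type} [Fintype ι]

/-- total degree -/
def dg (m : ι → ℕ) : ℕ := ∑ u, m u

/-- product of binomial coefficients -/
def bn (p : (ι → ℕ) × (ι → ℕ)) : ℕ := ∏ u, (p.1 u + p.2 u).choose (p.2 u)

/-- product of factorials -/
def fc (m : ι → ℕ) : ℕ := ∏ u, (m u).factorial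

theorem fc_pos (m : ι → ℕ) : 0 < fc m := Finset.prod_pos fun _ _ => Nat.factorial_pos _

theorem dg_add (m n : ι → ℕ) : dg (m + n) = dg m + dg n := by
  simp [dg, Finset.sum_add_distrib]

theorem dg_zero : dg (0 : ι → ℕ) = 0 := by simp [dg]

theorem dg_eq_zero {m : ι → ℕ} : dg m = 0 ↔ m = 0 := by
  constructor
  · intro h
    funext u
    have h1 : m u ≤ dg m := Finset.single_le_sum (f := m) (fun _ _ => Nat.zero_le _) (mem_univ u)
    rw [Pi.zero_apply]
    omega
  · rintro rfl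
    exact dg_zero

theorem dg_pos {m : ι → ℕ} (h : m ≠ 0) : 1 ≤ dg m :=
  Nat.one_le_iff_ne_zero.2 fun h1 => h (dg_eq_zero.1 h1)

theorem bn_fc (p : (ι → ℕ) × (ι → ℕ)) : bn p * fc p.1 * fc p.2 = fc (p.1 + p.2) := by
  rw [bn, fc, fc, fc, ← Finset.prod_mul_distrib, ← Finset.prod_mul_distrib]
  refine Finset.prod_congr rfl fun u _ => ?_
  rw [Pi.add_apply, ← Nat.add_choose_mul_factorial_mul_factorial (p.1 u) (p.2 u)]

theorem bn_zero_right (m : ι → ℕ) : bn (m, 0) = 1 := by simp [bn]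

theorem bn_zero_left (m : ι → ℕ) : bn (0, m) = 1 := by simp [bn]

theorem adg_one (n : ι → ℕ) :
    ∑ p ∈ adg n, ((bn p : ℕ) : Polynomial ℝ) * Polynomial.X ^ dg p.1 =
      (Polynomial.X + 1) ^ dg n := by
  have h := adg_binom (M := Polynomial ℝ) (fun _ : ι => Polynomial.X) (fun _ => 1) n
  rw [Finset.prod_pow_eq_pow_sum] at h
  change _ = _ ^ (∑ u, n u)
  rw [← h]
  refine Finset.sum_congr rfl fun p _ => ?_
  rw [Finset.prod_pow_eq_pow_sum]
  simp [bn, dg]

/-- Vandermonde -/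
theorem van (φ : ℕ → ℝ) (n m : ι → ℕ) :
    ∑ p ∈ adg n, ∑ q ∈ adg m, (bn p : ℝ) * (bn q : ℝ) * φ (dg p.1 + dg q.1) =
      ∑ i ∈ range (dg n + dg m + 1), ((dg n + dg m).choose i : ℝ) * φ i := by
  classical
  let L : Polynomial ℝ →ₗ[ℝ] ℝ := Polynomial.lsum fun i => φ i • LinearMap.id
  have hL : ∀ (i : ℕ) (a : ℕ), L ((a : Polynomial ℝ) * Polynomial.X ^ i) = (a : ℝ) * φ i := by
    intro i a
    have h1 : (a : Polynomial ℝ) * Polynomial.X ^ i = Polynomial.monomial i (a : ℝ) := by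
      rw [← Polynomial.C_mul_X_pow_eq_monomial]
      simp
    rw [h1]
    change (Polynomial.lsum fun i => φ i • (LinearMap.id : ℝ →ₗ[ℝ] ℝ)) _ = _
    rw [Polynomial.lsum_apply, Polynomial.sum_monomial_index]
    · simp [mul_comm]
    · simp
  have h2 : (∑ p ∈ adg n, ((bn p : ℕ) : Polynomial ℝ) * Polynomial.X ^ dg p.1) *
      (∑ q ∈ adg m, ((bn q : ℕ) : Polynomial ℝ) * Polynomial.X ^ dg q.1) =
      ∑ i ∈ range (dg n + dg m + 1),
        (((dg n + dg m).choose i : ℕ) : Polynomial ℝ) * Polynomial.X ^ i := by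
    rw [adg_one, adg_one, ← pow_add, add_pow]
    refine Finset.sum_congr rfl fun i _ => ?_
    rw [one_pow, mul_one, mul_comm]
  have h3 := congrArg L h2
  rw [map_sum] at h3
  simp only [hL] at h3
  rw [← h3, Finset.sum_mul_sum, map_sum]
  refine Finset.sum_congr rfl fun p _ => ?_
  rw [map_sum]
  refine Finset.sum_congr rfl fun q _ => ?_
  have h4 := hL (dg p.1 + dg q.1) (bn p * bn q)
  push_cast at h4
  rw [← h4]
  congr 1
  rw [pow_add]
  ring

theorem choose_ge {K i : ℕ} (h1 : 1 ≤ i) (h2 : i + 1 ≤ K) : K ≤ K.choose i := by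
  induction K generalizing i with
  | zero => omega
  | succ K ih =>
    obtain ⟨j, rfl⟩ : ∃ j, i = j + 1 := ⟨i - 1, by omega⟩
    rw [Nat.choose_succ_succ']
    have h3 : 1 ≤ K.choose j := Nat.choose_pos (by omega)
    rcases Nat.lt_or_ge (j + 1 + 1) (K + 1) with h4 | h4
    · have := ih h1 (by omega)
      omega
    · have h5 : K = j + 1 := by omega
      subst h5
      rw [Nat.choose_self, Nat.choose_succ_self_right]

theorem inv_choose_le {K i : ℕ} (h1 : 1 ≤ i) (h2 : i + 1 ≤ K) :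
    ((K.choose i : ℝ))⁻¹ ≤ (K : ℝ)⁻¹ := by
  have h3 : (K : ℝ) ≤ K.choose i := by exact_mod_cast choose_ge h1 h2
  have h4 : (0 : ℝ) < K := by
    have : 1 ≤ K := by omega
    exact_mod_cast this
  exact inv_anti₀ h4 h3

theorem sum_inv_mid (K : ℕ) (hK : 1 ≤ K) :
    ∑ i ∈ Icc 1 (K - 1), ((K.choose i : ℝ))⁻¹ ≤ 1 := by
  have h1 : ∀ i ∈ Icc 1 (K - 1), ((K.choose i : ℝ))⁻¹ ≤ (K : ℝ)⁻¹ := by
    intro i hi
    rw [mem_Icc] at hi
    exact inv_choose_le hi.1 (by omega)
  refine (Finset.sum_le_sum h1).trans ?_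
  rw [Finset.sum_const, Nat.card_Icc, nsmul_eq_mul]
  have h4 : (0 : ℝ) < K := by exact_mod_cast hK
  rw [mul_inv_le_iff₀ h4, one_mul]
  exact_mod_cast (by omega : K - 1 + 1 - 1 ≤ K)

theorem sum_inv_all (K : ℕ) :
    ∑ i ∈ range (K + 1), ((K.choose i : ℝ))⁻¹ ≤ 3 := by
  rcases Nat.eq_zero_or_pos K with rfl | hK
  · simp
  · have h1 : range (K + 1) = insert 0 (insert K (Icc 1 (K - 1))) := by
      ext i
      simp only [mem_range, mem_insert, mem_Icc]
      omega
    rw [h1, Finset.sum_insert, Finset.sum_insert]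
    · have := sum_inv_mid K hK
      simp only [Nat.choose_zero_right, Nat.choose_self, Nat.cast_one, inv_one]
      linarith
    · simp only [mem_Icc]
      omega
    · simp only [mem_insert, mem_Icc]
      omega

/-- a multi-index of given degree below a given one -/
theorem exists_split (k : ι → ℕ) (ν : ℕ) (h : ν ≤ dg k) :
    ∃ n m : ι → ℕ, n + m = k ∧ dg m = ν := by
  classical
  induction ν with
  | zero => exact ⟨k, 0, add_zero k, dg_zero⟩
  | succ ν ih =>
    obtain ⟨n, m, h1, h2⟩ := ih (by omega)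
    have h3 : dg n + dg m = dg k := by rw [← dg_add, h1]
    have h4 : n ≠ 0 := by
      rintro rfl
      rw [dg_zero] at h3
      omega
    obtain ⟨u, hu⟩ : ∃ u, n u ≠ 0 := Function.ne_iff.1 h4
    refine ⟨n - Pi.single u 1, m + Pi.single u 1, ?_, ?_⟩
    · funext v
      have h5 := congrFun h1 v
      simp only [Pi.add_apply, Pi.sub_apply] at h5 ⊢
      by_cases hv : v = u
      · subst hv
        rw [Pi.single_eq_same]
        omega
      · rw [Pi.single_eq_of_ne hv]
        omega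
    · rw [dg_add, h2]
      congr 1
      simp [dg]

end Pool.Agent.Helper93.LH
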