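import Pool.Agent.Helper93.LH.Ha

/-!
PROJECT ALLQ (MP_274814_nt), block H: the recursion (field of definition, denominators, size).
-/

set_option autoImplicit false

namespace Pool.Agent.Helper93.LH

open Finset Pool.Agent.Helper13.LT Pool.Agent.Helper96.LU

variable {ι : Type} [Fintype ι]

section defs

variable {F : Type} [Field F]

/-- one term of the Hirota derivative -/
def tm (b : (ι → ℕ) → F) (x : ((ι → ℕ) × (ι → ℕ)) × ((ι → ℕ) × (ι → ℕ))) : F :=
  (-1) ^ dg x.2.2 * (bn x.1 : F) * (bn x.2 : F) * (b (x.1.1 + x.2.1) * b (x.1.2 + x.2.2))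

/-- derivative of order `n` in `z` and `m` in `w` of `f(z+w) f(z-w)` -/
noncomputable def gg (b : (ι → ℕ) → F) (n m : ι → ℕ) : F := ∑ x ∈ adg n ×ˢ adg m, tm b x

open Classical in
/-- the same without the two extreme terms -/
noncomputable def gr (b : (ι → ℕ) → F) (n m : ι → ℕ) : F :=
  ∑ x ∈ (adg n ×ˢ adg m).filter (fun x => x.1.1 + x.2.1 ≠ 0 ∧ x.1.2 + x.2.2 ≠ 0), tm b x

theorem mem_prod {n m : ι → ℕ} {x : ((ι → ℕ) × (ι → ℕ)) × ((ι → ℕ) × (ι → ℕ))} :
    x ∈ adg n ×ˢ adg m ↔ x.1.1 + x.1.2 = n ∧ x.2.1 + x.2.2 = m := by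
  rw [Finset.mem_product, mem_adg, mem_adg]

theorem gg_split {b : (ι → ℕ) → F} (h0 : b 0 = 1) (n m : ι → ℕ) (hm : m ≠ 0)
    (he : Even (dg m)) : gg b n m = 2 * b (n + m) + gr b n m := by
  classical
  have h1 : (adg n ×ˢ adg m).filter (fun x => ¬ (x.1.1 + x.2.1 ≠ 0 ∧ x.1.2 + x.2.2 ≠ 0)) =
      {((0, n), (0, m)), ((n, 0), (m, 0))} := by
    ext x
    rw [mem_filter, mem_prod, mem_insert, mem_singleton]
    constructor
    · rintro ⟨⟨h2, h3⟩, h4⟩
      rw [not_and_or, not_not, not_not] at h4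
      rcases h4 with h4 | h4
      · left
        have h5 : x.1.1 = 0 ∧ x.2.1 = 0 := by
          constructor <;>
          · funext u
            have := congrFun h4 u
            simp only [Pi.add_apply, Pi.zero_apply] at this ⊢
            omega
        rw [h5.1, zero_add] at h2
        rw [h5.2, zero_add] at h3
        rw [← h2, ← h3, ← h5.1]
        nth_rewrite 2 [h5.1]
        rw [← h5.2]
      · right
        have h5 : x.1.2 = 0 ∧ x.2.2 = 0 := by
          constructor <;>
          · funext u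
            have := congrFun h4 u
            simp only [Pi.add_apply, Pi.zero_apply] at this ⊢
            omega
        rw [h5.1, add_zero] at h2
        rw [h5.2, add_zero] at h3
        rw [← h2, ← h3, ← h5.1]
        nth_rewrite 2 [h5.1]
        rw [← h5.2]
    · rintro (rfl | rfl)
      · simp
      · simp
  have h2 : ((0, n), (0, m)) ≠ (((n, 0), (m, 0)) :
      ((ι → ℕ) × (ι → ℕ)) × ((ι → ℕ) × (ι → ℕ))) := by
    intro h
    apply hm
    have := congrArg (fun x => x.2.2) h
    exact this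
  rw [gg, gr, ← Finset.sum_filter_add_sum_filter_not (adg n ×ˢ adg m)
    (fun x => x.1.1 + x.2.1 ≠ 0 ∧ x.1.2 + x.2.2 ≠ 0), h1, Finset.sum_pair h2, add_comm]
  congr 1
  simp only [tm, bn_zero_left, bn_zero_right, add_zero, h0, dg_zero, he.neg_one_pow]
  simp
  ring

end defs

/-! ### induction on the degree -/

theorem deg_lt {n m : ι → ℕ} {x : ((ι → ℕ) × (ι → ℕ)) × ((ι → ℕ) × (ι → ℕ))}
    (hx : x ∈ adg n ×ˢ adg m) : dg (x.1.1 + x.2.1) + dg (x.1.2 + x.2.2) = dg n + dg m := by
  rw [mem_prod] at hx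
  rw [← hx.1, ← hx.2]
  simp only [dg_add]
  ring

/-- the recursion -/
structure Rec {F : Type} [Field F] (b : (ι → ℕ) → F) (ν r : ℕ) (μ : Fin r → ι → ℕ)
    (d : (ι → ℕ) → Fin r → F) : Prop where
  zero : b 0 = 1
  two : 2 ≤ ν
  lt : ∀ j, dg (μ j) < ν
  eq : ∀ n m, dg m = ν → 2 * b (n + m) = ∑ j, d m j * gg b n (μ j) - gr b n m

theorem Rec.mem {F : Type} [Field F] [CharZero F] {b : (ι → ℕ) → F} {ν r : ℕ}
    {μ : Fin r → ι → ℕ} {d : (ι → ℕ) → Fin r → F} (h : Rec b ν r μ d) (E : Subfield F)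
    (h1 : ∀ k, dg k < ν → b k ∈ E) (h2 : ∀ m, dg m = ν → ∀ j, d m j ∈ E) (k : ι → ℕ) :
    b k ∈ E := by
  classical
  obtain ⟨K, hK⟩ : ∃ K, K = dg k := ⟨_, rfl⟩
  induction K using Nat.strong_induction_on generalizing k with
  | _ K ih =>
    rcases Nat.lt_or_ge (dg k) ν with h3 | h3
    · exact h1 k h3
    · obtain ⟨n, m, rfl, h4⟩ := exists_split k ν h3
      have h5 := h.eq n m h4
      have h6 : dg n + dg m = K := by rw [hK, dg_add]
      have htm : ∀ x : ((ι → ℕ) × (ι → ℕ)) × ((ι → ℕ) × (ι → ℕ)),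
          b (x.1.1 + x.2.1) ∈ E → b (x.1.2 + x.2.2) ∈ E → tm b x ∈ E := by
        intro x h7 h8
        exact mul_mem (mul_mem (mul_mem (pow_mem (neg_mem (one_mem E)) _) (natCast_mem E _))
          (natCast_mem E _)) (mul_mem h7 h8)
      have h7 : 2 * b (n + m) ∈ E := by
        rw [h5]
        refine sub_mem (sum_mem fun j _ => mul_mem (h2 m h4 j) (sum_mem fun x hx => ?_))
          (sum_mem fun x hx => ?_)
        · have h8 := deg_lt hx
          have h9 := h.lt j
          exact htm x (ih _ (by omega) _ rfl) (ih _ (by omega) _ rfl)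
        · rw [mem_filter] at hx
          have h8 := deg_lt hx.1
          have h9 := dg_pos hx.2.1
          have h10 := dg_pos hx.2.2
          exact htm x (ih _ (by omega) _ rfl) (ih _ (by omega) _ rfl)
      have h8 : b (n + m) = (2 : F)⁻¹ * (2 * b (n + m)) := by
        rw [inv_mul_cancel_left₀ (two_ne_zero)]
      rw [h8]
      exact mul_mem (inv_mem (by
        have h9 : ((2 : ℕ) : F) ∈ E := natCast_mem E 2
        rwa [Nat.cast_ofNat] at h9)) h7

theorem Rec.integral {F : Type} [Field F] [CharZero F] {b : (ι → ℕ) → F} {ν r : ℕ}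
    {μ : Fin r → ι → ℕ} {d : (ι → ℕ) → Fin r → F} (h : Rec b ν r μ d) (D : ℕ)
    (h1 : ∀ k, dg k < ν → IsIntegral ℤ ((D : F) * b k))
    (h2 : ∀ m, dg m = ν → ∀ j, IsIntegral ℤ ((D : F) * d m j)) (k : ι → ℕ) :
    IsIntegral ℤ (((2 * D : ℕ) : F) ^ (2 * dg k - 1) * b k) := by
  classical
  have hn : ∀ n : ℕ, IsIntegral ℤ ((n : ℕ) : F) := fun n => by
    have := isIntegral_algebraMap (R := ℤ) (A := F) (x := (n : ℤ))
    simpa using this
  obtain ⟨K, hK⟩ : ∃ K, K = dg k := ⟨_, rfl⟩
  induction K using Nat.strong_induction_on generalizing k with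
  | _ K ih =>
    by_cases hk0 : k = 0
    · subst hk0
      rw [dg_zero, h.zero]
      simpa using isIntegral_one (R := ℤ) (B := F)
    rcases Nat.lt_or_ge (dg k) ν with h3 | h3
    · have h4 := dg_pos hk0
      obtain ⟨t, ht⟩ : ∃ t, 2 * dg k - 1 = t + 1 := ⟨2 * dg k - 2, by omega⟩
      have h5 : ((2 * D : ℕ) : F) ^ (2 * dg k - 1) * b k =
          ((2 * (2 * D) ^ t : ℕ) : F) * ((D : F) * b k) := by
        rw [ht, pow_succ]
        push_cast
        ring
      rw [h5]
      exact (hn _).mul (h1 k h3)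
    · obtain ⟨n, m, rfl, h4⟩ := exists_split k ν h3
      have h5 := h.eq n m h4
      have h6 : dg n + dg m = K := by rw [hK, dg_add]
      have hν := h.two
      rw [← hK]
      obtain ⟨t, ht⟩ : ∃ t, 2 * K - 1 = t + 1 := ⟨2 * K - 2, by omega⟩
      -- a term with exponents
      have htm : ∀ (x : ((ι → ℕ) × (ι → ℕ)) × ((ι → ℕ) × (ι → ℕ))) (s : ℕ),
          IsIntegral ℤ (((2 * D : ℕ) : F) ^ (2 * dg (x.1.1 + x.2.1) - 1) * b (x.1.1 + x.2.1)) →
          IsIntegral ℤ (((2 * D : ℕ) : F) ^ (2 * dg (x.1.2 + x.2.2) - 1) * b (x.1.2 + x.2.2)) →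
          (2 * dg (x.1.1 + x.2.1) - 1) + (2 * dg (x.1.2 + x.2.2) - 1) ≤ s →
          IsIntegral ℤ (((2 * D : ℕ) : F) ^ s * tm b x) := by
        intro x s a1 a2 a3
        obtain ⟨w, hw⟩ := Nat.exists_eq_add_of_le a3
        have h8 : ((2 * D : ℕ) : F) ^ s * tm b x =
            ((-1) ^ dg x.2.2 * (((2 * D) ^ w * bn x.1 * bn x.2 : ℕ) : F)) *
            ((((2 * D : ℕ) : F) ^ (2 * dg (x.1.1 + x.2.1) - 1) * b (x.1.1 + x.2.1)) *
             (((2 * D : ℕ) : F) ^ (2 * dg (x.1.2 + x.2.2) - 1) * b (x.1.2 + x.2.2))) := by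
          rw [hw, pow_add, pow_add, tm]
          push_cast
          ring
        rw [h8]
        exact (((isIntegral_one (R := ℤ) (B := F)).neg.pow _).mul (hn _)).mul (a1.mul a2)
      have h7 : ((2 * D : ℕ) : F) ^ (2 * K - 1) * b (n + m) =
          ∑ j, ((D : F) * d m j) * ∑ x ∈ adg n ×ˢ adg (μ j), ((2 * D : ℕ) : F) ^ t * tm b x -
          (D : F) * ∑ x ∈ (adg n ×ˢ adg m).filter
            (fun x => x.1.1 + x.2.1 ≠ 0 ∧ x.1.2 + x.2.2 ≠ 0), ((2 * D : ℕ) : F) ^ t * tm b x := by
        have h8 : ((2 * D : ℕ) : F) ^ (2 * K - 1) * b (n + m) =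
            (D : F) * ((2 * D : ℕ) : F) ^ t * (2 * b (n + m)) := by
          rw [ht, pow_succ]
          push_cast
          ring
        rw [h8, h5, mul_sub, Finset.mul_sum]
        congr 1
        · refine Finset.sum_congr rfl fun j _ => ?_
          rw [gg, ← Finset.mul_sum]
          ring
        · rw [gr, ← Finset.mul_sum]
          ring
      rw [h7]
      refine IsIntegral.sub (IsIntegral.sum _ fun j _ => (h2 m h4 j).mul
        (IsIntegral.sum _ fun x hx => ?_)) ((hn D).mul (IsIntegral.sum _ fun x hx => ?_))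
      · have h8 := deg_lt hx
        have h9 := h.lt j
        refine htm x t (ih _ (by omega) _ rfl) (ih _ (by omega) _ rfl) ?_
        omega
      · rw [mem_filter] at hx
        have h8 := deg_lt hx.1
        have h9 := dg_pos hx.2.1
        have h10 := dg_pos hx.2.2
        refine htm x t (ih _ (by omega) _ rfl) (ih _ (by omega) _ rfl) ?_
        omega

/-- the majorant -/
noncomputable def mj (R : ℝ) (i : ℕ) : ℝ := R ^ i * ((i.factorial : ℝ)) ^ 2

theorem mj_nonneg {R : ℝ} (hR : 0 ≤ R) (i : ℕ) : 0 ≤ mj R i := by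
  unfold mj
  positivity

theorem mj_mul (R : ℝ) {K i : ℕ} (h : i ≤ K) :
    (K.choose i : ℝ) * (mj R i * mj R (K - i)) = mj R K * ((K.choose i : ℝ))⁻¹ := by
  have h1 : ((K.choose i : ℕ) : ℝ) * (i.factorial : ℝ) * ((K - i).factorial : ℝ) =
      (K.factorial : ℝ) := by
    exact_mod_cast Nat.choose_mul_factorial_mul_factorial h
  have h2 : (K.choose i : ℝ) ≠ 0 := by
    have := Nat.choose_pos h
    positivity
  have h3 : R ^ K = R ^ i * R ^ (K - i) := by
    rw [← pow_add]
    congr 1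
    omega
  unfold mj
  rw [← h1, h3]
  field_simp

theorem tm_norm {b : (ι → ℕ) → ℂ} (x : ((ι → ℕ) × (ι → ℕ)) × ((ι → ℕ) × (ι → ℕ)))
    {R : ℝ} (hR : 0 ≤ R)
    (h1 : ‖b (x.1.1 + x.2.1)‖ ≤ mj R (dg (x.1.1 + x.2.1)))
    (h2 : ‖b (x.1.2 + x.2.2)‖ ≤ mj R (dg (x.1.2 + x.2.2))) :
    ‖tm b x‖ ≤ (bn x.1 : ℝ) * (bn x.2 : ℝ) *
      (mj R (dg (x.1.1 + x.2.1)) * mj R (dg (x.1.2 + x.2.2))) := by
  unfold tm
  rw [norm_mul, norm_mul, norm_mul, norm_mul, norm_pow, norm_neg, norm_one, one_pow, one_mul,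
    Complex.norm_natCast, Complex.norm_natCast]
  have h3 := mj_nonneg hR (dg (x.1.1 + x.2.1))
  gcongr

theorem Rec.size {b : (ι → ℕ) → ℂ} {ν r : ℕ}
    {μ : Fin r → ι → ℕ} {d : (ι → ℕ) → Fin r → ℂ} (h : Rec b ν r μ d) (R : ℝ) (hR : 1 ≤ R)
    (h1 : ∀ k, k ≠ 0 → dg k < ν → ‖b k‖ ≤ R)
    (h2 : ∀ m, dg m = ν → 3 * ∑ j, ‖d m j‖ ≤ R) (k : ι → ℕ) :
    ‖b k‖ ≤ mj R (dg k) := by
  classical
  have hR0 : 0 ≤ R := by linarith
  obtain ⟨K, hK⟩ : ∃ K, K = dg k := ⟨_, rfl⟩
  induction K using Nat.strong_induction_on generalizing k with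
  | _ K ih =>
    by_cases hk0 : k = 0
    · subst hk0
      rw [dg_zero, h.zero]
      simp [mj]
    rcases Nat.lt_or_ge (dg k) ν with h3 | h3
    · refine (h1 k hk0 h3).trans ?_
      have h4 := dg_pos hk0
      have h5 : (1 : ℝ) ≤ ((dg k).factorial : ℝ) ^ 2 := by
        have : (1 : ℝ) ≤ ((dg k).factorial : ℝ) := by exact_mod_cast Nat.factorial_pos _
        exact one_le_pow₀ this
      have h6 : R ^ 1 ≤ R ^ (dg k) := pow_le_pow_right₀ hR h4
      rw [pow_one] at h6
      unfold mj
      calc R ≤ R ^ dg k * 1 := by linarith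
        _ ≤ _ := by gcongr
    · obtain ⟨n, m, rfl, h4⟩ := exists_split k ν h3
      have h5 := h.eq n m h4
      have h6 : dg n + dg m = K := by rw [hK, dg_add]
      have hν := h.two
      rw [← hK]
      -- first kind
      have e1 : ∀ j, ‖gg b n (μ j)‖ ≤ 3 * mj R (K - 1) := by
        intro j
        have hj := h.lt j
        obtain ⟨K', hK'⟩ : ∃ K', K' = dg n + dg (μ j) := ⟨_, rfl⟩
        have e2 : ‖gg b n (μ j)‖ ≤ ∑ p ∈ adg n, ∑ q ∈ adg (μ j), (bn p : ℝ) * (bn q : ℝ) *
            (fun i => mj R i * mj R (K' - i)) (dg p.1 + dg q.1) := by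
          rw [gg, ← Finset.sum_product']
          refine (norm_sum_le _ _).trans (Finset.sum_le_sum fun x hx => ?_)
          have h8 := deg_lt hx
          refine (tm_norm x hR0 (ih _ (by omega) _ rfl) (ih _ (by omega) _ rfl)).trans ?_
          have h9 : dg (x.1.2 + x.2.2) = K' - (dg x.1.1 + dg x.2.1) := by
            rw [← dg_add]
            omega
          rw [h9, dg_add]
        rw [van (fun i => mj R i * mj R (K' - i)) n (μ j), ← hK'] at e2
        refine e2.trans ?_
        have e3 : ∀ i ∈ range (K' + 1), (K'.choose i : ℝ) * (mj R i * mj R (K' - i)) =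
            mj R K' * ((K'.choose i : ℝ))⁻¹ := by
          intro i hi
          rw [mem_range] at hi
          exact mj_mul R (by omega)
        rw [Finset.sum_congr rfl e3, ← Finset.mul_sum]
        have e4 := sum_inv_all K'
        have e5 : mj R K' ≤ mj R (K - 1) := by
          unfold mj
          have : K' ≤ K - 1 := by omega
          have a1 : R ^ K' ≤ R ^ (K - 1) := pow_le_pow_right₀ hR this
          have a2 : ((K'.factorial : ℕ) : ℝ) ≤ ((K - 1).factorial : ℝ) := by
            exact_mod_cast Nat.factorial_le this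
          gcongr
        have e6 := mj_nonneg hR0 K'
        calc mj R K' * ∑ i ∈ range (K' + 1), ((K'.choose i : ℝ))⁻¹ ≤ mj R K' * 3 := by gcongr
          _ ≤ mj R (K - 1) * 3 := by gcongr
          _ = 3 * mj R (K - 1) := by ring
      -- second kind
      have e7 : ‖gr b n m‖ ≤ mj R K := by
        have e2 : ‖gr b n m‖ ≤ ∑ p ∈ adg n, ∑ q ∈ adg m, (bn p : ℝ) * (bn q : ℝ) *
            (fun i => if i ∈ Icc 1 (K - 1) then mj R i * mj R (K - i) else 0)
              (dg p.1 + dg q.1) := by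
          rw [gr, ← Finset.sum_product']
          refine (norm_sum_le _ _).trans ?_
          rw [Finset.sum_filter]
          refine Finset.sum_le_sum fun x hx => ?_
          have h8 := deg_lt hx
          split_ifs with h9
          · have h10 := dg_pos h9.1
            have h11 := dg_pos h9.2
            have h12 : dg x.1.1 + dg x.2.1 ∈ Icc 1 (K - 1) := by
              rw [mem_Icc, ← dg_add]
              omega
            refine (tm_norm x hR0 (ih _ (by omega) _ rfl) (ih _ (by omega) _ rfl)).trans ?_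
            have h13 : dg (x.1.2 + x.2.2) = K - (dg x.1.1 + dg x.2.1) := by
              rw [← dg_add]
              omega
            simp only [if_pos h12]
            rw [h13, dg_add]
          · have h10 : (0 : ℝ) ≤ (fun i => if i ∈ Icc 1 (K - 1) then mj R i * mj R (K - i)
                else 0) (dg x.1.1 + dg x.2.1) := by
              simp only
              split_ifs
              · exact mul_nonneg (mj_nonneg hR0 _) (mj_nonneg hR0 _)
              · exact le_rfl
            positivity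
        rw [van (fun i => if i ∈ Icc 1 (K - 1) then mj R i * mj R (K - i) else 0) n m, h6] at e2
        refine e2.trans ?_
        have e3 : ∑ i ∈ range (K + 1), (K.choose i : ℝ) *
            (if i ∈ Icc 1 (K - 1) then mj R i * mj R (K - i) else 0) =
            ∑ i ∈ Icc 1 (K - 1), mj R K * ((K.choose i : ℝ))⁻¹ := by
          simp only [mul_ite, mul_zero]
          rw [← Finset.sum_filter]
          refine Finset.sum_congr ?_ fun i hi => ?_
          · ext i
            simp only [mem_filter, mem_range, mem_Icc]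
            omega
          · rw [mem_Icc] at hi
            exact mj_mul R (by omega)
        rw [e3, ← Finset.mul_sum]
        have e4 := sum_inv_mid K (by omega)
        have e6 := mj_nonneg hR0 K
        calc mj R K * ∑ i ∈ Icc 1 (K - 1), ((K.choose i : ℝ))⁻¹ ≤ mj R K * 1 := by gcongr
          _ = mj R K := mul_one _
      have e8 : ‖∑ j, d m j * gg b n (μ j)‖ ≤ R * mj R (K - 1) := by
        refine (norm_sum_le _ _).trans ?_
        have a1 : ∀ j ∈ (univ : Finset (Fin r)), ‖d m j * gg b n (μ j)‖ ≤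
            ‖d m j‖ * (3 * mj R (K - 1)) := by
          intro j _
          rw [norm_mul]
          exact mul_le_mul_of_nonneg_left (e1 j) (norm_nonneg _)
        refine (Finset.sum_le_sum a1).trans ?_
        rw [← Finset.sum_mul]
        have a2 := h2 m h4
        have a3 := mj_nonneg hR0 (K - 1)
        calc (∑ j, ‖d m j‖) * (3 * mj R (K - 1)) = (3 * ∑ j, ‖d m j‖) * mj R (K - 1) := by ring
          _ ≤ R * mj R (K - 1) := by gcongr
      have e9 : R * mj R (K - 1) ≤ mj R K := by
        obtain ⟨t, rfl⟩ : ∃ t, K = t + 1 := ⟨K - 1, by omega⟩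
        rw [Nat.add_sub_cancel]
        unfold mj
        have a2 : ((t.factorial : ℕ) : ℝ) ≤ ((t + 1).factorial : ℝ) := by
          exact_mod_cast Nat.factorial_le (Nat.le_succ t)
        calc R * (R ^ t * (t.factorial : ℝ) ^ 2) = R ^ (t + 1) * (t.factorial : ℝ) ^ 2 := by ring
          _ ≤ _ := by gcongr
      have e10 : ‖(2 : ℂ) * b (n + m)‖ ≤ mj R K + mj R K := by
        rw [h5]
        refine (norm_sub_le _ _).trans ?_
        linarith
      rw [norm_mul, Complex.norm_ofNat] at e10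
      linarith

end Pool.Agent.Helper93.LH
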