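import Mathlib

/-!
PROJECT ALLQ (MP_274814_nt), block H: infinite matrices of finite rank over a field.
-/

set_option autoImplicit false

namespace Pool.Agent.Helper93.LH

open Finset Matrix

/-- all minors of size `R` of an (infinite) matrix vanish -/
def Mv {X Y K : Type} [Field K] (h : X → Y → K) (R : ℕ) : Prop :=
  ∀ (n : Fin R → X) (m : Fin R → Y), (Matrix.of fun i j => h (n i) (m j)).det = 0

/-- a matrix of finite rank factors through finitely many rows and columns -/
theorem finite_rank {X Y K : Type} [Field K] (h : X → Y → K) (hR : ∃ R, Mv h R) :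
    ∃ (r : ℕ) (m : Fin r → Y) (d : Y → Fin r → K),
      ∀ x y, h x y = ∑ j, d y j * h x (m j) := by
  classical
  obtain ⟨R, hRv, hmin⟩ : ∃ R, Mv h R ∧ ∀ R' < R, ¬ Mv h R' :=
    ⟨Nat.find hR, Nat.find_spec hR, fun R' hR' => Nat.find_min hR hR'⟩
  obtain ⟨r, rfl⟩ : ∃ r, R = r + 1 := by
    rcases Nat.eq_zero_or_pos R with h0 | h0
    · subst h0
      have := hRv (fun i => i.elim0) (fun i => i.elim0)
      simp at this
    · exact ⟨R - 1, by omega⟩
  have h1 := hmin r (by omega)
  unfold Mv at h1
  push Not at h1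
  obtain ⟨n, m, hnm⟩ := h1
  set H : Matrix (Fin r) (Fin r) K := Matrix.of fun i j => h (n i) (m j) with hH
  have hu : IsUnit H.det := isUnit_iff_ne_zero.2 hnm
  haveI : Invertible H := H.invertibleOfIsUnitDet hu
  refine ⟨r, m, fun y j => ∑ i, H⁻¹ j i * h (n i) y, fun x y => ?_⟩
  -- bordered matrix
  have h2 := hRv (Fin.snoc n x : Fin (r + 1) → X) (Fin.snoc m y : Fin (r + 1) → Y)
  let e : Fin r ⊕ Fin 1 ≃ Fin (r + 1) := finSumFinEquiv
  have h3 : ((Matrix.of fun i j => h ((Fin.snoc n x : Fin (r + 1) → X) i)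
      ((Fin.snoc m y : Fin (r + 1) → Y) j)).submatrix e e) =
      Matrix.fromBlocks H (Matrix.of fun i _ => h (n i) y) (Matrix.of fun _ j => h x (m j))
        (Matrix.of fun _ _ => h x y) := by
    ext i j
    rcases i with i | i <;> rcases j with j | j
    · simp [e, H, Fin.snoc]
    · have : j = 0 := Subsingleton.elim _ _
      subst this
      simp [e, Fin.snoc]
    · have : i = 0 := Subsingleton.elim _ _
      subst this
      simp [e, Fin.snoc]
    · have hi : i = 0 := Subsingleton.elim _ _
      have hj : j = 0 := Subsingleton.elim _ _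
      subst hi hj
      simp [e, Fin.snoc]
  have h4 := Matrix.det_submatrix_equiv_self e (Matrix.of fun i j =>
    h ((Fin.snoc n x : Fin (r + 1) → X) i) ((Fin.snoc m y : Fin (r + 1) → Y) j))
  rw [h3, h2, Matrix.det_fromBlocks₁₁, mul_eq_zero] at h4
  rcases h4 with h4 | h4
  · exact absurd h4 hnm
  · rw [Matrix.det_fin_one] at h4
    simp only [Matrix.sub_apply, Matrix.of_apply, Matrix.mul_apply, sub_eq_zero] at h4
    rw [h4, Matrix.invOf_eq_nonsing_inv]
    simp only [Finset.sum_mul]
    rw [Finset.sum_comm]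
    refine Finset.sum_congr rfl fun i _ => ?_
    refine Finset.sum_congr rfl fun j _ => ?_
    ring

end Pool.Agent.Helper93.LH
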