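import Pool.Agent.Helper93.LH.Hb
import Pool.Agent.Helper93.LH.Hc
import Pool.Agent.Helper59.LU.Cp
import Pool.Agent.Helper13.LT.PsAll

/-!
PROJECT ALLQ (MP_274814_nt), block H: the bilinear coefficients of `f(z+w) f(z-w)` have finite rank.
-/

set_option autoImplicit false

namespace Pool.Agent.Helper93.LH

open Finset Matrix Pool.Agent.Helper13.LT Pool.Agent.Helper96.LU
open Pool.Agent.Helper59.LU (PS_sum)

variable {ι : Type} [Fintype ι]

/-- Taylor coefficient of `z ↦ f(z+w) f(z-w)` -/
noncomputable def cw (a : (ι → ℕ) → ℂ) (n : ι → ℕ) (w : ι → ℂ) : ℂ :=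
  ∑ p ∈ adg n, gb a p.1 w * gb a p.2 (fun u => -1 * w u)

/-- coefficient of `z^n w^m` -/
noncomputable def hh (a : (ι → ℕ) → ℂ) (n m : ι → ℕ) : ℂ :=
  ∑ p ∈ adg n, cv (fun k => a (k + p.1) * ∏ u, ((k u + p.1 u).choose (p.1 u) : ℂ))
    (fun k => a (k + p.2) * (∏ u, ((k u + p.2 u).choose (p.2 u) : ℂ)) * ∏ u, (-1 : ℂ) ^ k u) m

theorem ps_cw_z {a : (ι → ℕ) → ℂ} {f : (ι → ℂ) → ℂ} (h : PS a f) (w : ι → ℂ) :
    PS (fun n => cw a n w) (fun z => f (z + w) * f (z - w)) := by
  have h1 := (ps_shift h w).mul (ps_shift h (fun u => -1 * w u))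
  have e : (fun t => f (w + t) * f ((fun u => -1 * w u) + t)) =
      fun z => f (z + w) * f (z - w) := by
    funext z
    rw [add_comm w z]
    congr 2
    funext u
    simp only [Pi.add_apply, Pi.sub_apply]
    ring
  rw [e] at h1
  exact h1

theorem ps_cw_w {a : (ι → ℕ) → ℂ} {f : (ι → ℂ) → ℂ} (h : PS a f) (n : ι → ℕ) :
    PS (fun m => hh a n m) (fun w => cw a n w) := by
  classical
  have h1 : ∀ p : (ι → ℕ) × (ι → ℕ),
      PS (cv (fun k => a (k + p.1) * ∏ u, ((k u + p.1 u).choose (p.1 u) : ℂ))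
        (fun k => a (k + p.2) * (∏ u, ((k u + p.2 u).choose (p.2 u) : ℂ)) *
          ∏ u, (-1 : ℂ) ^ k u)) (fun w => gb a p.1 w * gb a p.2 (fun u => -1 * w u)) := by
    intro p
    exact (ps_gb h p.1).mul ((ps_gb h p.2).scale (fun _ => -1))
  intro w
  have h2 := hasSum_sum (s := adg n) fun p _ => h1 p w
  have e : (fun m : ι → ℕ => (fun m => hh a n m) m * ∏ u, w u ^ m u) =
      fun m => ∑ p ∈ adg n, cv (fun k => a (k + p.1) * ∏ u, ((k u + p.1 u).choose (p.1 u) : ℂ))
        (fun k => a (k + p.2) * (∏ u, ((k u + p.2 u).choose (p.2 u) : ℂ)) *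
          ∏ u, (-1 : ℂ) ^ k u) m * ∏ u, w u ^ m u := by
    funext m
    simp only [hh]
    rw [Finset.sum_mul]
  rw [e]
  exact h2

/-- finite dimension gives vanishing minors -/
theorem minors {a : (ι → ℕ) → ℂ} {f : (ι → ℂ) → ℂ} (h : PS a f)
    (S : Submodule ℂ ((ι → ℂ) → ℂ)) [FiniteDimensional ℂ S]
    (hS : ∀ w : ι → ℂ, (fun z => f (z + w) * f (z - w)) ∈ S) :
    Mv (hh a) (Module.finrank ℂ S + 1) := by
  classical
  set R := Module.finrank ℂ S + 1 with hR
  intro n
  have key : ∀ (J : Finset (Fin R)) (w : Fin R → (ι → ℂ)) (m : Fin R → (ι → ℕ)),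
      (Matrix.of fun i j => if j ∈ J then hh a (n i) (m j) else cw a (n i) (w j)).det = 0 := by
    intro J
    induction J using Finset.induction_on with
    | empty =>
      intro w m
      have h1 : ¬ LinearIndependent ℂ
          (fun j : Fin R => (⟨_, hS (w j)⟩ : S)) := by
        intro h2
        have h3 := h2.fintype_card_le_finrank
        rw [Fintype.card_fin] at h3
        omega
      rw [Fintype.not_linearIndependent_iff] at h1
      obtain ⟨g, hg, i0, hi0⟩ := h1
      have h2 : (fun z => ∑ j, g j * (f (z + w j) * f (z - w j))) = fun _ => 0 := by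
        have h3 := congrArg Subtype.val hg
        funext z
        have h4 := congrFun h3 z
        simpa [Finset.sum_apply] using h4
      have h3 := PS_sum (fun j => ps_cw_z h (w j)) g
      rw [h2] at h3
      have h5 : PS (fun _ : ι → ℕ => (0 : ℂ)) (fun _ => (0 : ℂ)) := by
        intro z
        simp
      have h6 := PS.unique h3 h5
      rw [← Matrix.exists_mulVec_eq_zero_iff]
      refine ⟨g, fun h7 => hi0 (congrFun h7 i0), ?_⟩
      funext i
      have h8 := congrFun h6 (n i)
      rw [Matrix.mulVec, dotProduct, Pi.zero_apply, ← h8]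
      refine Finset.sum_congr rfl fun j _ => ?_
      simp [mul_comm]
    | insert j0 J hj0 ih =>
      intro w m
      -- the columns other than `j0`
      set M : Matrix (Fin R) (Fin R) ℂ :=
        Matrix.of fun i j => if j ∈ J then hh a (n i) (m j) else cw a (n i) (w j) with hM
      have e1 : ∀ x : ι → ℂ, Matrix.cramer M (fun i => cw a (n i) x) j0 = 0 := by
        intro x
        rw [Matrix.cramer_apply]
        have h1 := ih (Function.update w j0 x) m
        convert h1 using 2
        ext i j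
        rw [Matrix.updateCol_apply]
        by_cases hj : j = j0
        · subst hj
          simp [hj0]
        · simp [hM, hj]
      have e2 : ∀ v : Fin R → ℂ, Matrix.cramer M v j0 =
          ∑ i, Matrix.cramer M (Pi.single i 1) j0 * v i := by
        intro v
        have h1 : v = ∑ i, v i • (Pi.single i (1 : ℂ) : Fin R → ℂ) := by
          funext k
          simp [Finset.sum_apply, Pi.single_apply]
        conv_lhs => rw [h1, map_sum]
        rw [Finset.sum_apply]
        refine Finset.sum_congr rfl fun i _ => ?_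
        rw [map_smul, Pi.smul_apply, smul_eq_mul, mul_comm]
      have e3 := PS_sum (fun i => ps_cw_w h (n i)) (fun i => Matrix.cramer M (Pi.single i 1) j0)
      have e4 : (fun z : ι → ℂ => ∑ i, Matrix.cramer M (Pi.single i 1) j0 * cw a (n i) z) =
          fun _ => 0 := by
        funext x
        rw [← e2, e1]
      rw [e4] at e3
      have h5 : PS (fun _ : ι → ℕ => (0 : ℂ)) (fun _ => (0 : ℂ)) := by
        intro z
        simp
      have h6 := congrFun (PS.unique e3 h5) (m j0)
      rw [← e2 (fun i => hh a (n i) (m j0)), Matrix.cramer_apply] at h6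
      rw [← h6]
      congr 1
      ext i j
      rw [Matrix.updateCol_apply]
      by_cases hj : j = j0
      · subst hj
        simp
      · simp [hM, hj]
  intro m
  have h1 := key univ (fun _ => 0) m
  simpa using h1

/-- the relation with the Hirota coefficients -/
theorem hh_gg (a : (ι → ℕ) → ℂ) (n m : ι → ℕ) :
    (fc n : ℂ) * (fc m : ℂ) * hh a n m = gg (fun k => (fc k : ℂ) * a k) n m := by
  classical
  rw [hh, gg, Finset.mul_sum, Finset.sum_product]
  refine Finset.sum_congr rfl fun p hp => ?_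
  rw [cv, Finset.mul_sum]
  refine Finset.sum_congr rfl fun q hq => ?_
  have hp' := mem_adg.1 hp
  have hq' := mem_adg.1 hq
  have h1 : ((fc n : ℕ) : ℂ) = (bn p : ℂ) * fc p.1 * fc p.2 := by
    rw [← hp', ← bn_fc p]
    push_cast
    ring
  have h2 : ((fc m : ℕ) : ℂ) = (bn q : ℂ) * fc q.1 * fc q.2 := by
    rw [← hq', ← bn_fc q]
    push_cast
    ring
  have h3 : ∀ x y : ι → ℕ, ((fc (y + x) : ℕ) : ℂ) =
      (∏ u, ((x u + y u).choose (y u) : ℂ)) * fc x * fc y := by
    intro x y
    rw [add_comm y x, ← bn_fc (x, y), bn]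
    push_cast
    ring
  have h4 : ∏ u, (-1 : ℂ) ^ q.2 u = (-1) ^ dg q.2 := by
    rw [Finset.prod_pow_eq_pow_sum, dg]
  simp only [tm]
  rw [h1, h2, h3 q.1 p.1, h3 q.2 p.2, h4, add_comm q.1 p.1, add_comm q.2 p.2]
  ring

end Pool.Agent.Helper93.LH
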