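import Pool.Agent.Helper93.LH.Hd
import Pool.Agent.Helper53.LE.Df

/-!
PROJECT ALLQ (MP_274814_nt), block H: Taylor coefficients of theta functions, assembly.
-/

set_option autoImplicit false

namespace Pool.Agent.Helper93.LH

open Finset Matrix Pool.Agent.Helper13.LT Pool.Agent.Helper96.LU
open Pool.Agent.Helper53.LE (RTE)

variable {ι : Type} [Fintype ι]

section map

variable {F F' : Type} [Field F] [Field F'] (σ : F →+* F')

theorem tm_map (b : (ι → ℕ) → F) (x : ((ι → ℕ) × (ι → ℕ)) × ((ι → ℕ) × (ι → ℕ))) :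
    σ (tm b x) = tm (fun k => σ (b k)) x := by
  simp [tm]

theorem gg_map (b : (ι → ℕ) → F) (n m : ι → ℕ) :
    σ (gg b n m) = gg (fun k => σ (b k)) n m := by
  simp only [gg, map_sum, tm_map]

theorem gr_map (b : (ι → ℕ) → F) (n m : ι → ℕ) :
    σ (gr b n m) = gr (fun k => σ (b k)) n m := by
  simp only [gr, map_sum, tm_map]

theorem Rec.map {b : (ι → ℕ) → F} {ν r : ℕ} {μ : Fin r → ι → ℕ} {d : (ι → ℕ) → Fin r → F}
    (h : Rec b ν r μ d) : Rec (fun k => σ (b k)) ν r μ (fun m j => σ (d m j)) where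
  zero := by rw [h.zero, map_one]
  two := h.two
  lt := h.lt
  eq n m hm := by
    have h1 := congrArg σ (h.eq n m hm)
    simp only [map_mul, map_sub, map_sum, gg_map, gr_map, map_ofNat] at h1
    exact h1

theorem Rec.of_map {b : (ι → ℕ) → F} {ν r : ℕ} {μ : Fin r → ι → ℕ} {d : (ι → ℕ) → Fin r → F}
    {d' : (ι → ℕ) → Fin r → F'}
    (h : Rec (fun k => σ (b k)) ν r μ d') (hd : ∀ m, dg m = ν → ∀ j, d' m j = σ (d m j)) :
    Rec b ν r μ d where
  zero := by
    have h1 : σ (b 0) = 1 := h.zero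
    rwa [map_eq_one_iff σ σ.injective] at h1
  two := h.two
  lt := h.lt
  eq n m hm := by
    apply σ.injective
    have h1 := h.eq n m hm
    simp only [map_mul, map_sub, map_sum, gg_map, gr_map, map_ofNat]
    rw [h1]
    congr 1
    exact Finset.sum_congr rfl fun j _ => by rw [hd m hm j]

end map

theorem finite_dg (ν : ℕ) : {k : ι → ℕ | dg k ≤ ν}.Finite := by
  classical
  refine Set.Finite.subset (Fintype.piFinset fun _ : ι => range (ν + 1)).finite_toSet ?_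
  intro k hk
  rw [Finset.mem_coe, Fintype.mem_piFinset]
  intro u
  have h1 : k u ≤ dg k := Finset.single_le_sum (f := k) (fun _ _ => Nat.zero_le _) (mem_univ u)
  have h2 : dg k ≤ ν := hk
  rw [mem_range]
  omega

/-- the recursion of a function with finite dimensional `f(z+w) f(z-w)`, over the algebraic numbers -/
theorem exists_rec (f : (ι → ℂ) → ℂ) (a : (ι → ℕ) → ℂ) (hf : PS a f) (h0 : f 0 = 1)
    (halg : ∀ m, IsAlgebraic ℚ (a m)) (S : Submodule ℂ ((ι → ℂ) → ℂ)) [FiniteDimensional ℂ S]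
    (hS : ∀ w : ι → ℂ, (fun z => f (z + w) * f (z - w)) ∈ S) :
    ∃ (ν r : ℕ) (μ : Fin r → ι → ℕ) (d : (ι → ℕ) → Fin r → ℂ),
      Rec (fun k => (fc k : ℂ) * a k) ν r μ d ∧ ∀ m j, IsAlgebraic ℚ (d m j) := by
  classical
  set b : (ι → ℕ) → ℂ := fun k => (fc k : ℂ) * a k with hb
  have ha0 : a 0 = 1 := by
    have h1 := hf 0
    have h2 : HasSum (fun m : ι → ℕ => a m * ∏ u, (0 : ι → ℂ) u ^ m u) (a 0) := by
      have h3 := hasSum_single (f := fun m : ι → ℕ => a m * ∏ u, (0 : ι → ℂ) u ^ m u) 0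
        (fun m hm => by
          obtain ⟨u, hu⟩ : ∃ u, m u ≠ 0 := Function.ne_iff.1 hm
          rw [Finset.prod_eq_zero (mem_univ u), mul_zero]
          rw [Pi.zero_apply, zero_pow hu])
      simpa using h3
    rw [h2.unique h1, h0]
  have hbalg : ∀ k, IsAlgebraic ℚ (b k) := fun k => (isAlgebraic_natCast (fc k)).mul (halg k)
  let K0 : IntermediateField ℚ ℂ := algebraicClosure ℚ ℂ
  have hK0 : ∀ x : ℂ, x ∈ K0 ↔ IsAlgebraic ℚ x := fun x => mem_algebraicClosure_iff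
  let b0 : (ι → ℕ) → K0 := fun k => ⟨b k, (hK0 _).2 (hbalg k)⟩
  have hb0 : (fun k => (algebraMap K0 ℂ) (b0 k)) = b := rfl
  have hMv : Mv (gg b0) (Module.finrank ℂ S + 1) := by
    intro n m
    apply (algebraMap K0 ℂ).injective
    rw [RingHom.map_det, map_zero]
    have e : (algebraMap K0 ℂ).mapMatrix (Matrix.of fun i j => gg b0 (n i) (m j)) =
        Matrix.of fun i j => (fc (n i) : ℂ) *
          (Matrix.of fun i j => (fc (m j) : ℂ) *
            (Matrix.of fun i j => hh a (n i) (m j)) i j) i j := by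
      ext i j
      rw [RingHom.mapMatrix_apply, Matrix.map_apply, Matrix.of_apply, gg_map, hb0]
      simp only [Matrix.of_apply]
      rw [hb, ← hh_gg]
      ring
    rw [e, Matrix.det_mul_column, Matrix.det_mul_row, minors hf S hS n m, mul_zero, mul_zero]
  obtain ⟨r, μ, d, hd⟩ := finite_rank (gg b0) ⟨_, hMv⟩
  have hrec : Rec b0 (2 * (∑ j, dg (μ j) + 1)) r μ d := by
    refine ⟨?_, by omega, fun j => ?_, fun n m hm => ?_⟩
    · apply Subtype.ext
      change b 0 = 1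
      simp [hb, ha0, fc]
    · have h1 : dg (μ j) ≤ ∑ j, dg (μ j) :=
        Finset.single_le_sum (f := fun j => dg (μ j)) (fun _ _ => Nat.zero_le _) (mem_univ j)
      omega
    · have h1 : m ≠ 0 := by
        rintro rfl
        rw [dg_zero] at hm
        omega
      have h2 : b0 0 = 1 := by
        apply Subtype.ext
        change b 0 = 1
        simp [hb, ha0, fc]
      rw [← hd n m, gg_split h2 n m h1 (by rw [hm]; exact even_two_mul _)]
      ring
  refine ⟨_, r, μ, fun m j => (algebraMap K0 ℂ) (d m j), hrec.map (algebraMap K0 ℂ), ?_⟩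
  intro m j
  exact (hK0 _).1 (d m j).2

/-- BLOCK H. -/
theorem H_main (f : (ι → ℂ) → ℂ) (a : (ι → ℕ) → ℂ) (hf : PS a f) (h0 : f 0 = 1)
    (halg : ∀ m, IsAlgebraic ℚ (a m)) (S : Submodule ℂ ((ι → ℂ) → ℂ)) [FiniteDimensional ℂ S]
    (hS : ∀ w : ι → ℂ, (fun z => f (z + w) * f (z - w)) ∈ S) :
    ∃ E : IntermediateField ℚ ℂ, FiniteDimensional ℚ E ∧ RTE E a := by
  classical
  obtain ⟨ν, r, μ, d, hrec, hdalg⟩ := exists_rec f a hf h0 halg S hS
  set b : (ι → ℕ) → ℂ := fun k => (fc k : ℂ) * a k with hb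
  have hbalg : ∀ k, IsAlgebraic ℚ (b k) := fun k => (isAlgebraic_natCast (fc k)).mul (halg k)
  -- the number field
  obtain ⟨T, hT⟩ : ∃ T : Set ℂ, T = b '' {k | dg k ≤ ν} ∪
      (fun x : (ι → ℕ) × Fin r => d x.1 x.2) '' ({m | dg m ≤ ν} ×ˢ Set.univ) := ⟨_, rfl⟩
  have hTf : T.Finite := by
    rw [hT]
    exact ((finite_dg ν).image _).union (((finite_dg ν).prod Set.finite_univ).image _)
  have : Finite T := hTf
  let E : IntermediateField ℚ ℂ := IntermediateField.adjoin ℚ T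
  have hTint : ∀ x ∈ T, IsIntegral ℚ x := by
    rw [hT]
    rintro x (⟨k, _, rfl⟩ | ⟨k, _, rfl⟩)
    · exact (hbalg k).isIntegral
    · exact (hdalg _ _).isIntegral
  have hE : FiniteDimensional ℚ E := IntermediateField.finiteDimensional_adjoin hTint
  have hsub : T ⊆ E := IntermediateField.subset_adjoin ℚ T
  have hbE0 : ∀ k, dg k < ν → b k ∈ E := fun k hk => hsub (by
    rw [hT]
    exact Or.inl ⟨k, hk.le, rfl⟩)
  have hdE : ∀ m, dg m = ν → ∀ j, d m j ∈ E := fun m hm j => hsub (by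
    rw [hT]
    exact Or.inr ⟨(m, j), ⟨hm.le, Set.mem_univ _⟩, rfl⟩)
  have hbE : ∀ k, b k ∈ E := fun k => hrec.mem E.toSubfield hbE0 hdE k
  let b1 : (ι → ℕ) → E := fun k => ⟨b k, hbE k⟩
  let d1 : (ι → ℕ) → Fin r → E := fun m j =>
    if h : dg m = ν then ⟨d m j, hdE m h j⟩ else 0
  have hrec1 : Rec b1 ν r μ d1 := by
    refine Rec.of_map (algebraMap E ℂ) (d' := d) hrec fun m hm j => ?_
    simp only [d1, dif_pos hm]
    rfl
  have : NumberField E := { to_charZero := inferInstance, to_finiteDimensional := hE }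
  -- the finite set of constants
  obtain ⟨T1, hT1⟩ : ∃ T1 : Set E, T1 = b1 '' {k | dg k ≤ ν} ∪
      (fun x : (ι → ℕ) × Fin r => d1 x.1 x.2) '' ({m | dg m ≤ ν} ×ˢ Set.univ) := ⟨_, rfl⟩
  have hT1f : T1.Finite := by
    rw [hT1]
    exact ((finite_dg ν).image _).union (((finite_dg ν).prod Set.finite_univ).image _)
  have hb1 : ∀ k, dg k ≤ ν → b1 k ∈ T1 := fun k hk => by
    rw [hT1]
    exact Or.inl ⟨k, hk, rfl⟩
  have hd1 : ∀ m, dg m = ν → ∀ j, d1 m j ∈ T1 := fun m hm j => by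
    rw [hT1]
    exact Or.inr ⟨(m, j), ⟨hm.le, Set.mem_univ _⟩, rfl⟩
  -- denominators
  obtain ⟨D0, hD0, hDint⟩ : ∃ D0 : ℕ, 1 ≤ D0 ∧ ∀ x ∈ T1, IsIntegral ℤ ((D0 : E) * x) := by
    obtain ⟨y, hy, h1⟩ := exists_integral_multiples ℤ ℚ hT1f.toFinset
    refine ⟨y.natAbs, Int.natAbs_pos.2 hy, fun x hx => ?_⟩
    have h2 := h1 x (hT1f.mem_toFinset.2 hx)
    rw [zsmul_eq_mul] at h2
    rcases Int.natAbs_eq y with h3 | h3
    · rw [h3, Int.cast_natCast] at h2
      exact h2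
    · rw [h3, Int.cast_neg, Int.cast_natCast, neg_mul] at h2
      simpa using h2.neg
  -- size
  obtain ⟨R0, hR0, hRb⟩ : ∃ R0 : ℕ, 1 ≤ R0 ∧ ∀ x ∈ T1, ∀ φ : E →+* ℂ, ‖φ x‖ ≤ R0 := by
    have h1 : (Set.image2 (fun (x : E) (φ : E →+* ℂ) => ‖φ x‖) T1 Set.univ).Finite :=
      hT1f.image2 _ Set.finite_univ
    obtain ⟨B, hB⟩ := h1.bddAbove
    refine ⟨⌈B⌉₊ + 1, by omega, fun x hx φ => ?_⟩
    have h2 := hB ⟨x, hx, φ, Set.mem_univ _, rfl⟩
    have h3 := Nat.le_ceil B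
    push_cast
    simp only at h2
    linarith
  have hsize : ∀ (φ : E →+* ℂ) (k : ι → ℕ), ‖φ (b1 k)‖ ≤ mj ((3 * r + 1) * R0 : ℕ) (dg k) := by
    intro φ k
    have hR1 : (1 : ℝ) ≤ R0 := by exact_mod_cast hR0
    have hr0 : (0 : ℝ) ≤ r := Nat.cast_nonneg r
    refine (hrec1.map φ).size _ ?_ (fun k hk0 hk => ?_) (fun m hm => ?_) k
    · push_cast
      nlinarith
    · refine (hRb _ (hb1 k hk.le) φ).trans ?_
      push_cast
      nlinarith
    · have h1 : ∑ j, ‖φ (d1 m j)‖ ≤ ∑ _j : Fin r, (R0 : ℝ) :=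
        Finset.sum_le_sum fun j _ => hRb _ (hd1 m hm j) φ
      rw [Finset.sum_const, Finset.card_univ, Fintype.card_fin, nsmul_eq_mul] at h1
      push_cast
      nlinarith
  have hint := hrec1.integral D0 (fun k hk => hDint _ (hb1 k hk.le))
    (fun m hm j => hDint _ (hd1 m hm j))
  obtain ⟨R, hR⟩ : ∃ R : ℕ, R = (3 * r + 1) * R0 := ⟨_, rfl⟩
  have hR1 : 1 ≤ R := by
    rw [hR]
    exact Nat.mul_pos (by omega) hR0
  rw [← hR] at hsize
  refine ⟨E, hE, 2 * D0 * R, fun m => ((2 * D0 * R : ℕ) : E) ^ (2 * dg m) * b1 m, ?_, ?_, ?_, ?_⟩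
  · exact Nat.mul_pos (by omega) hR1
  · intro m
    have e1 : (((((2 * D0 * R : ℕ) : E) ^ (2 * dg m) * b1 m : E)) : ℂ) =
        ((2 * D0 * R : ℕ) : ℂ) ^ (2 * dg m) * b m := by
      have e0 : (((((2 * D0 * R : ℕ) : E)) : ℂ)) = ((2 * D0 * R : ℕ) : ℂ) :=
        map_natCast (algebraMap E ℂ) _
      rw [IntermediateField.coe_mul, IntermediateField.coe_pow, e0]
    rw [e1]
    simp only [hb, fc, dg]
    push_cast
    ring
  · intro m
    obtain ⟨s, hs⟩ : ∃ s, 2 * dg m = (2 * dg m - 1) + s := ⟨2 * dg m - (2 * dg m - 1), by omega⟩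
    have h1 : ((2 * D0 * R : ℕ) : E) ^ (2 * dg m) * b1 m =
        (((R ^ (2 * dg m) * (2 * D0) ^ s : ℕ)) : E) *
          (((2 * D0 : ℕ) : E) ^ (2 * dg m - 1) * b1 m) := by
      have h2 : ((2 * D0 : ℕ) : E) ^ (2 * dg m) =
          ((2 * D0 : ℕ) : E) ^ (2 * dg m - 1) * ((2 * D0 : ℕ) : E) ^ s := by
        rw [← pow_add, ← hs]
      have h3 : ((2 * D0 * R : ℕ) : E) ^ (2 * dg m) =
          ((2 * D0 : ℕ) : E) ^ (2 * dg m) * (R : E) ^ (2 * dg m) := by
        rw [← mul_pow]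
        push_cast
        ring
      rw [h3, h2]
      push_cast
      ring
    simp only
    rw [h1]
    refine IsIntegral.mul ?_ (hint m)
    have := isIntegral_algebraMap (R := ℤ) (A := E)
      (x := ((R ^ (2 * dg m) * (2 * D0) ^ s : ℕ) : ℤ))
    simpa using this
  · intro φ m
    have h1 := hsize φ m
    change ‖φ (((2 * D0 * R : ℕ) : E) ^ (2 * dg m) * b1 m)‖ ≤
      ((2 * D0 * R : ℕ) : ℝ) ^ (3 * dg m) * ((dg m).factorial : ℝ) ^ 3
    rw [map_mul, map_pow, map_natCast, norm_mul, norm_pow, Complex.norm_natCast]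
    have h2 : (R : ℝ) ≤ ((2 * D0 * R : ℕ) : ℝ) := by
      exact_mod_cast Nat.le_mul_of_pos_left R (by omega)
    have h3 : (R : ℝ) ^ dg m ≤ ((2 * D0 * R : ℕ) : ℝ) ^ dg m := by gcongr
    have h4 : ((dg m).factorial : ℝ) ^ 2 ≤ ((dg m).factorial : ℝ) ^ 3 := by
      have : (1 : ℝ) ≤ ((dg m).factorial : ℝ) := by exact_mod_cast Nat.factorial_pos _
      exact pow_le_pow_right₀ this (by norm_num)
    calc ((2 * D0 * R : ℕ) : ℝ) ^ (2 * dg m) * ‖φ (b1 m)‖ ≤
        ((2 * D0 * R : ℕ) : ℝ) ^ (2 * dg m) * ((R : ℝ) ^ dg m * ((dg m).factorial : ℝ) ^ 2) := by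
          gcongr
          exact h1
      _ ≤ ((2 * D0 * R : ℕ) : ℝ) ^ (2 * dg m) *
          (((2 * D0 * R : ℕ) : ℝ) ^ dg m * ((dg m).factorial : ℝ) ^ 3) := by gcongr
      _ = _ := by
          rw [← mul_assoc, ← pow_add]
          congr 2
          ring

end Pool.Agent.Helper93.LH
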